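import Mathlib

set_option autoImplicit false

namespace Pool.Agent.Results.MP_0a44cb_nt.KempnerNotPoisson

open Filter Topology

/-- `x_n = {n² α}`, the fractional part of `n² α`. -/
noncomputable def x (α : ℝ) (n : ℕ) : ℝ := Int.fract ((n : ℝ) ^ 2 * α)

/-- The `k`-level correlation `R_k(f, N)` of `{n² α}`, for `k = d + 1` and `f : ℝ^d → ℝ`:
`(1/N)` times the sum over pairwise distinct `n_0, …, n_d ∈ {1, …, N}` and over `m ∈ ℤ^d` of
`f (N (x_{n_0} - x_{n_1} + m_0), …, N (x_{n_{d-1}} - x_{n_d} + m_{d-1}))`. -/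
noncomputable def corr (d N : ℕ) (α : ℝ) (f : (Fin d → ℝ) → ℝ) : ℝ :=
  (1 / (N : ℝ)) *
    ∑ n ∈ (Fintype.piFinset fun _ : Fin (d + 1) => Finset.Icc 1 N).filter
        (fun n => Function.Injective n),
      ∑' m : Fin d → ℤ,
        f fun i => (N : ℝ) * (x α (n i.castSucc) - x α (n i.succ) + (m i : ℝ))

/-- `α` is of type `κ`: `|α - a/q| ≥ C q^{-κ}` for all coprime integers `a`, `q ≥ 1`. -/
def IsOfType (κ α : ℝ) : Prop :=
  ∃ C : ℝ, 0 < C ∧ ∀ a q : ℤ, 1 ≤ q → IsCoprime a q →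
    C * (q : ℝ) ^ (-κ) ≤ |α - (a : ℝ) / (q : ℝ)|

/-- The Kempner number `∑_{n ≥ 0} 2^{-2^n} = 1/2 + 1/4 + 1/16 + 1/256 + ⋯`. -/
noncomputable def kempner : ℝ := ∑' n : ℕ, (1 / (2 : ℝ)) ^ (2 ^ n)

/-! ### The partial sums `A_j / Q_j`, `Q_j = 2^{2^j}` -/

def Q (j : ℕ) : ℤ := 2 ^ (2 ^ j)

def A : ℕ → ℤ
  | 0 => 1
  | j + 1 => A j * Q j + 1

lemma Q_succ (j : ℕ) : Q (j + 1) = Q j ^ 2 := by
  unfold Q; rw [pow_succ, pow_mul]

lemma A_succ (j : ℕ) : A (j + 1) = A j * Q j + 1 := rfl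

lemma Q_pos (j : ℕ) : 0 < Q j := by unfold Q; positivity

lemma Q_zero : Q 0 = 2 := by unfold Q; norm_num

lemma two_le_Q (j : ℕ) : 2 ≤ Q j := by
  induction j with
  | zero => rw [Q_zero]
  | succ j ih => rw [Q_succ]; nlinarith

lemma coprime_A : ∀ j, IsCoprime (A j) (Q j)
  | 0 => isCoprime_one_left
  | j + 1 => by
    refine ⟨1 - A j * Q j, A j ^ 2, ?_⟩
    rw [Q_succ, A_succ]
    ring

/-- Either `Q_j` is `2`, `4`, or at least `16`. -/
lemma Q_cases (j : ℕ) : Q j = 2 ∨ Q j = 4 ∨ 16 ≤ Q j := by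
  rcases j with _ | _ | j
  · left; rw [Q_zero]
  · right; left; rw [Q_succ, Q_zero]; norm_num
  · right; right
    rw [Q_succ, Q_succ]
    have := two_le_Q j
    nlinarith [mul_self_nonneg (Q j ^ 2 - 4)]


lemma b1_aux (q m v B : ℝ) (hm0 : 0 < m) (hq16 : 16 ≤ q) (hmm : 1 ≤ m ^ 2)
    (hIH : q * (m ^ 2 + 1) + 32 * m ^ 2 ≤ 64 * m ^ 2 * (m * v))
    (hmq : m ^ 2 ≤ q / 4) (hMB : q * (m * v) - m ^ 2 ≤ m * B) :
    q ^ 2 * (m ^ 2 + 1) + 32 * m ^ 2 ≤ 64 * m ^ 2 * (m * B) := by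
  have h10 : q * (q * (m ^ 2 + 1) + 32 * m ^ 2) ≤ q * (64 * m ^ 2 * (m * v)) :=
    mul_le_mul_of_nonneg_left hIH (by linarith)
  have h11 : m ^ 2 * (q * (m * v) - m ^ 2) ≤ m ^ 2 * (m * B) :=
    mul_le_mul_of_nonneg_left hMB (by positivity)
  have h12 : m ^ 2 * m ^ 2 ≤ m ^ 2 * (q / 4) := mul_le_mul_of_nonneg_left hmq (by positivity)
  have h13 : m ^ 2 * 16 ≤ m ^ 2 * q := mul_le_mul_of_nonneg_left hq16 (by positivity)
  have e : q * (64 * m ^ 2 * (m * v)) = 64 * (m ^ 2 * (q * (m * v))) := by ring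
  have e2 : m ^ 2 * (q * (m * v) - m ^ 2) = m ^ 2 * (q * (m * v)) - m ^ 2 * m ^ 2 := by ring
  have e3 : q * (q * (m ^ 2 + 1) + 32 * m ^ 2) = q ^ 2 * (m ^ 2 + 1) + 32 * (m ^ 2 * q) := by ring
  have e4 : 64 * m ^ 2 * (m * B) = 64 * (m ^ 2 * (m * B)) := by ring
  rw [e, e3] at h10
  rw [e2] at h11
  rw [e4]
  linarith


lemma b2_aux (q m v B : ℝ) (hm0 : 0 < m) (hv0 : 0 < v) (hq16 : 16 ≤ q)
    (h5 : q * (v ^ 2 + 1) + 32 * v ^ 2 ≤ 64 * v ^ 2 * (m * v))
    (hmv : (m * v) ^ 2 ≤ q ^ 2 / 128) (hc : 2 * v ^ 2 ≤ m ^ 2)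
    (hMB : q * (m * v) - m ^ 2 ≤ m * B) :
    q ^ 2 * (m ^ 2 + 1) + 32 * m ^ 2 ≤ 64 * m ^ 2 * (m * B) := by
  have h7 : (0 : ℝ) < v ^ 2 := by positivity
  have h12 : (q ^ 2 * (m ^ 2 + 1) + 32 * m ^ 2) * v ^ 2 ≤ (64 * m ^ 2 * (m * B)) * v ^ 2 := by
    have e1 : m ^ 2 * q * (q * (v ^ 2 + 1) + 32 * v ^ 2) ≤
        m ^ 2 * q * (64 * v ^ 2 * (m * v)) :=
      mul_le_mul_of_nonneg_left h5 (by positivity)
    have e2 : 64 * (m ^ 2 * v ^ 2) * (q * (m * v) - m ^ 2) ≤
        64 * (m ^ 2 * v ^ 2) * (m * B) :=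
      mul_le_mul_of_nonneg_left hMB (by positivity)
    have e3 : m ^ 2 * (m * v) ^ 2 ≤ m ^ 2 * (q ^ 2 / 128) :=
      mul_le_mul_of_nonneg_left hmv (by positivity)
    have e4 : q ^ 2 * (2 * v ^ 2) ≤ q ^ 2 * m ^ 2 :=
      mul_le_mul_of_nonneg_left hc (by positivity)
    have e5 : 32 * (m ^ 2 * v ^ 2) * 1 ≤ 32 * (m ^ 2 * v ^ 2) * q :=
      mul_le_mul_of_nonneg_left (by linarith) (by positivity)
    have f1 : m ^ 2 * q * (q * (v ^ 2 + 1) + 32 * v ^ 2) = q ^ 2 * m ^ 2 * v ^ 2 + q ^ 2 * m ^ 2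
      + 32 * (m ^ 2 * v ^ 2) * q := by ring
    have f2 : m ^ 2 * q * (64 * v ^ 2 * (m * v)) = 64 * (m ^ 2 * v ^ 2) * (q * (m * v)) := by ring
    have f3 : 64 * (m ^ 2 * v ^ 2) * (q * (m * v) - m ^ 2) = 64 * (m ^ 2 * v ^ 2) * (q * (m * v))
      - 64 * (m ^ 2 * (m * v) ^ 2) := by ring
    have f4 : (q ^ 2 * (m ^ 2 + 1) + 32 * m ^ 2) * v ^ 2 = q ^ 2 * m ^ 2 * v ^ 2 + q ^ 2 * v ^ 2 +
      32 * (m ^ 2 * v ^ 2) := by ring
    have f5 : (64 * m ^ 2 * (m * B)) * v ^ 2 = 64 * (m ^ 2 * v ^ 2) * (m * B) := by ring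
    rw [f1, f2] at e1
    rw [f3] at e2
    rw [f4, f5]
    linarith
  exact le_of_mul_le_mul_right h12 h7

/-- The main lower bound for the products: if `y ≡ x A_j (mod Q_j)` and `x, y ≠ 0`, then `|x y|` is
at least `Q_j / 64` (with an extra gain needed for the induction). -/
lemma key : ∀ j : ℕ, ∀ X Y P : ℤ, X ≠ 0 → Y ≠ 0 → Y = X * A j - P * Q j →
    ∀ m : ℤ, (m = |X| ∨ m = |Y|) → m ≤ |X| → m ≤ |Y| →
    (Q j : ℝ) * ((m : ℝ) ^ 2 + 1) + 32 * (m : ℝ) ^ 2 ≤ 64 * (m : ℝ) ^ 2 * (|(X : ℝ)| * |(Y : ℝ)|)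
  | 0 => by
    intro X Y P hX hY _ m hm hmX hmY
    rw [Q_zero]
    have h1 : (1 : ℤ) ≤ m := by
      rcases hm with rfl | rfl
      · exact Int.one_le_abs hX
      · exact Int.one_le_abs hY
    have h1R : (1 : ℝ) ≤ m := by exact_mod_cast h1
    have h2R : (m : ℝ) ≤ |(X : ℝ)| := by exact_mod_cast hmX
    have h3R : (m : ℝ) ≤ |(Y : ℝ)| := by exact_mod_cast hmY
    have h4 : (1 : ℝ) ≤ |(X : ℝ)| * |(Y : ℝ)| := by nlinarith
    have h5 : (0 : ℝ) < (m : ℝ) ^ 2 := by positivity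
    push_cast
    nlinarith [mul_le_mul_of_nonneg_left h4 h5.le]
  | j + 1 => by
    intro X Y P hX hY hXY M0 hm hmX hmY
    have IH := key j
    have hcases := Q_cases j
    have hcop := coprime_A j
    have hQ2 := two_le_Q j
    rw [Q_succ]
    rw [Q_succ, A_succ] at hXY
    set Qj := Q j with hQj
    set Aj := A j with hAj
    set y := X * Aj - P * Qj with hy
    have hYX : Y = X + Qj * y := by rw [hXY, hy]; ring
    have hm1 : (1 : ℤ) ≤ M0 := by
      rcases hm with rfl | rfl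
      · exact Int.one_le_abs hX
      · exact Int.one_le_abs hY
    have hm1R : (1 : ℝ) ≤ M0 := by exact_mod_cast hm1
    have hmXR : (M0 : ℝ) ≤ |(X : ℝ)| := by exact_mod_cast hmX
    have hmYR : (M0 : ℝ) ≤ |(Y : ℝ)| := by exact_mod_cast hmY
    have hQR : (2 : ℝ) ≤ Qj := by exact_mod_cast hQ2
    push_cast
    by_cases hy0 : y = 0
    · have hYX' : Y = X := by rw [hYX, hy0]; ring
      have hdvd : Qj ∣ X := by
        have : Qj ∣ X * Aj := ⟨P, by rw [hy] at hy0; linarith⟩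
        exact hcop.symm.dvd_of_dvd_mul_right this
      have h1 : Qj ≤ |X| := Int.le_of_dvd (abs_pos.mpr hX) ((dvd_abs _ _).mpr hdvd)
      have h1R : (Qj : ℝ) ≤ |(X : ℝ)| := by exact_mod_cast h1
      rw [hYX']
      have h2 : (Qj : ℝ) ^ 2 ≤ |(X : ℝ)| * |(X : ℝ)| := by nlinarith
      have h3 : (M0 : ℝ) ^ 2 * (Qj : ℝ) ^ 2 ≤ (M0 : ℝ) ^ 2 * (|(X : ℝ)| * |(X : ℝ)|) :=
        mul_le_mul_of_nonneg_left h2 (by positivity)
      have h4 : (1 : ℝ) ≤ (M0 : ℝ) ^ 2 := by nlinarith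
      have h5 : (4 : ℝ) ≤ (Qj : ℝ) ^ 2 := by nlinarith
      nlinarith [mul_le_mul h4 (le_refl ((Qj : ℝ) ^ 2)) (by positivity) (by positivity)]
    · -- the lower pair is `(m, y)`
      have hy1 : (1 : ℤ) ≤ |y| := Int.one_le_abs hy0
      have hy1R : (1 : ℝ) ≤ |(y : ℝ)| := by exact_mod_cast hy1
      -- the maximum
      obtain ⟨B, hB1, hB2, hB3⟩ : ∃ B : ℝ, (M0 : ℝ) ≤ B ∧
          |(X : ℝ)| * |(Y : ℝ)| = M0 * B ∧ (Qj : ℝ) * |(y : ℝ)| ≤ M0 + B := by
        have h1 : (Qj : ℝ) * |(y : ℝ)| ≤ |(X : ℝ)| + |(Y : ℝ)| := by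
          have h2 : (Qj : ℝ) * y = Y - X := by rw [hYX]; push_cast; ring
          have h3 : (Qj : ℝ) * |(y : ℝ)| = |(Y : ℝ) - X| := by
            rw [← h2, abs_mul, abs_of_pos (by linarith : (0 : ℝ) < Qj)]
          rw [h3]
          have := abs_sub (Y : ℝ) X
          linarith
        rcases hm with h | h
        · refine ⟨|(Y : ℝ)|, hmYR, ?_, ?_⟩
          · rw [h]; push_cast; ring
          · rw [h]; push_cast; exact h1
        · refine ⟨|(X : ℝ)|, hmXR, ?_, ?_⟩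
          · rw [h]; push_cast; ring
          · rw [h]; push_cast; linarith
      rw [hB2]
      -- the lower inequality
      have hlow : ∀ μ : ℤ, (μ = M0 ∨ μ = |y|) → μ ≤ M0 → μ ≤ |y| →
          (Qj : ℝ) * ((μ : ℝ) ^ 2 + 1) + 32 * (μ : ℝ) ^ 2 ≤
            64 * (μ : ℝ) ^ 2 * (M0 * |(y : ℝ)|) := by
        intro μ hμ hμ1 hμ2
        rcases hm with h | h
        · have := IH X y P hX hy0 hy μ (by rw [← h]; exact hμ) (by rw [← h]; exact hμ1) hμ2
          rw [h]; push_cast; exact this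
        · have h5 : y = Y * Aj - (P + y * Aj) * Qj := by
            have : Y = X + Qj * y := hYX
            rw [this]
            have : X * Aj = y + P * Qj := by rw [hy]; ring
            linear_combination (-1 : ℤ) * this
          have := IH Y y (P + y * Aj) hY hy0 h5 μ (by rw [← h]; exact hμ) (by rw [← h]; exact hμ1) hμ2
          rw [h]; push_cast; exact this
      set m : ℝ := (M0 : ℝ) with hmdef
      set q : ℝ := (Qj : ℝ) with hqdef
      have hm0 : 0 < m := by linarith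
      have hmm : 1 ≤ m ^ 2 := by nlinarith
      -- (a)
      by_cases ha : q ≤ 2 * m
      · have h1 : q ^ 2 ≤ 4 * (m * B) := by nlinarith
        have h2 : m ^ 2 * q ^ 2 ≤ m ^ 2 * (4 * (m * B)) := mul_le_mul_of_nonneg_left h1 (by positivity)
        have h3 : (4 : ℝ) ≤ q ^ 2 := by nlinarith
        nlinarith [mul_le_mul hmm (le_refl (q ^ 2)) (by positivity) (by positivity),
          mul_le_mul_of_nonneg_left h3 (by positivity : (0 : ℝ) ≤ m ^ 2)]
      · push Not at ha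
        -- now `q ≥ 16` or `q = 4, m = 1`
        have hYb : q * |(y : ℝ)| ≤ 2 * B := by nlinarith
        by_cases hb : q ^ 2 + 16 ≤ 16 * (q * (m * |(y : ℝ)|))
        · -- large product
          have h1 : q ^ 2 + 16 ≤ 32 * (m * B) := by nlinarith
          have h2 : m ^ 2 * (q ^ 2 + 16) ≤ m ^ 2 * (32 * (m * B)) :=
            mul_le_mul_of_nonneg_left h1 (by positivity)
          nlinarith [mul_le_mul hmm (le_refl (q ^ 2)) (by positivity) (by positivity)]
        · push Not at hb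
          have hMB : q * (m * |(y : ℝ)|) - m ^ 2 ≤ m * B := by nlinarith
          rcases hcases with h2 | h4 | h16
          · -- `Q = 2`
            exfalso
            have : q = 2 := by rw [hqdef, h2]; norm_num
            linarith
          · -- `Q = 4`
            have hq4 : q = 4 := by rw [hqdef, h4]; norm_num
            have hm_lt : M0 < 2 := by
              have : (M0 : ℝ) < 2 := by linarith
              exact_mod_cast this
            have hm_eq : m = 1 := by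
              have : M0 = 1 := by omega
              rw [hmdef, this]; norm_num
            rw [hm_eq, hq4] at hMB ⊢
            nlinarith
          · have hq16 : (16 : ℝ) ≤ q := by rw [hqdef]; exact_mod_cast h16
            by_cases hc : m ^ 2 ≤ 2 * |(y : ℝ)| ^ 2
            · -- (b1)
              have hm15 : m ≤ 3 / 2 * |(y : ℝ)| := by
                by_contra hcon
                push Not at hcon
                nlinarith
              have hm2 : m ^ 2 ≤ 3 / 2 * (m * |(y : ℝ)|) := by nlinarith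
              have hmy : q * m ^ 2 ≤ 3 / 2 * (q * (m * |(y : ℝ)|)) := by nlinarith
              have hmy2 : q * (m ^ 2) ≤ 3 / 32 * (q ^ 2 + 16) := by nlinarith
              have hmq : m ^ 2 ≤ q / 4 := by
                by_contra hcon
                push Not at hcon
                nlinarith
              -- IH with `μ = min m |y|`
              have hIH : q * (m ^ 2 + 1) + 32 * m ^ 2 ≤ 64 * m ^ 2 * (m * |(y : ℝ)|) := by
                rcases le_total M0 (|y|) with hle | hle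
                · exact hlow M0 (Or.inl rfl) le_rfl hle
                · have h5 := hlow (|y|) (Or.inr rfl) hle le_rfl
                  push_cast at h5
                  have h6 : |(y : ℝ)| ≤ m := by rw [hmdef]; exact_mod_cast hle
                  have h7 : (0 : ℝ) < |(y : ℝ)| ^ 2 := by positivity
                  have h8 : |(y : ℝ)| ^ 2 ≤ m ^ 2 := by nlinarith
                  -- divide by `|y|^2`, multiply by `m^2`
                  have h9 : (q * (m ^ 2 + 1) + 32 * m ^ 2) * |(y : ℝ)| ^ 2 ≤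
                      (64 * m ^ 2 * (m * |(y : ℝ)|)) * |(y : ℝ)| ^ 2 := by
                    nlinarith [mul_le_mul_of_nonneg_left h5 (by positivity : (0 : ℝ) ≤ m ^ 2),
                      mul_le_mul_of_nonneg_left h8 (by positivity : (0 : ℝ) ≤ q)]
                  exact le_of_mul_le_mul_right h9 h7
              exact b1_aux q m _ B hm0 hq16 hmm hIH hmq hMB
            · -- (b2)
              push Not at hc
              have hle : |y| ≤ M0 := by
                by_contra hcon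
                push Not at hcon
                have : (M0 : ℝ) < |(y : ℝ)| := by exact_mod_cast hcon
                rw [← hmdef] at this
                nlinarith
              have h5 := hlow (|y|) (Or.inr rfl) hle le_rfl
              push_cast at h5
              set v : ℝ := |(y : ℝ)| with hv
              have hv0 : 0 < v := by linarith
              have h7 : (0 : ℝ) < v ^ 2 := by positivity
              -- `m v < q / 16 + 1 / q`
              have hmv : (m * v) ^ 2 ≤ q ^ 2 / 128 := by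
                have h8 : m * v < q / 16 + 1 / 16 := by
                  by_contra hcon
                  push Not at hcon
                  nlinarith
                have h9 : 0 ≤ m * v := by positivity
                nlinarith
              exact b2_aux q m v B hm0 hv0 hq16 h5 hmv hc.le hMB

/-- the product bound -/
lemma key' (j : ℕ) (q p : ℤ) (hq : 0 < q) (hlt : q < Q j) :
    (Q j : ℝ) ≤ 64 * ((q : ℝ) * |(q : ℝ) * A j - p * Q j|) := by
  have hY : q * A j - p * Q j ≠ 0 := by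
    intro h
    have h1 : Q j ∣ q := by
      have : Q j ∣ q * A j := ⟨p, by linarith⟩
      exact (coprime_A j).symm.dvd_of_dvd_mul_right this
    have := Int.le_of_dvd hq h1
    omega
  have h := key j q (q * A j - p * Q j) p hq.ne' hY rfl
    (min |q| |q * A j - p * Q j|) (min_choice _ _) (min_le_left _ _) (min_le_right _ _)
  set m := min |q| |q * A j - p * Q j| with hm
  have hm1 : 1 ≤ m := by
    rw [hm]
    exact le_min (Int.one_le_abs hq.ne') (Int.one_le_abs hY)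
  have hm1R : (1 : ℝ) ≤ m := by exact_mod_cast hm1
  have hmm : 0 < (m : ℝ) ^ 2 := by positivity
  have hqR : (0 : ℝ) < q := by exact_mod_cast hq
  have hQR : (0 : ℝ) < Q j := by exact_mod_cast Q_pos j
  push_cast at h
  rw [abs_of_pos hqR] at h
  have h2 : (m : ℝ) ^ 2 * Q j ≤ (m : ℝ) ^ 2 * (64 * ((q : ℝ) * |(q : ℝ) * A j - p * Q j|)) := by
    nlinarith
  exact le_of_mul_le_mul_left h2 hmm

/-! ### The number -/

lemma summable_kempner : Summable fun n : ℕ => (1 / (2 : ℝ)) ^ (2 ^ n) := by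
  refine Summable.of_nonneg_of_le (fun j => by positivity) (fun j => ?_)
    (summable_geometric_of_lt_one (by norm_num) (by norm_num : (1 / (2 : ℝ)) < 1))
  exact pow_le_pow_of_le_one (by norm_num) (by norm_num) Nat.lt_two_pow_self.le

lemma partial_sum : ∀ j : ℕ,
    ∑ i ∈ Finset.range (j + 1), (1 / (2 : ℝ)) ^ (2 ^ i) = (A j : ℝ) / (Q j : ℝ)
  | 0 => by simp [A, Q]
  | j + 1 => by
    rw [Finset.sum_range_succ, partial_sum j]
    have h1 : (Q (j + 1) : ℝ) = (Q j : ℝ) ^ 2 := by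
      rw [Q_succ]; push_cast; ring
    have h2 : (A (j + 1) : ℝ) = A j * Q j + 1 := by
      rw [A_succ]; push_cast; ring
    have h3 : (1 / (2 : ℝ)) ^ (2 ^ (j + 1)) = 1 / (Q (j + 1) : ℝ) := by
      unfold Q; push_cast; rw [one_div_pow]
    rw [h3, h2, h1]
    have hq : (Q j : ℝ) ≠ 0 := by exact_mod_cast (Q_pos j).ne'
    field_simp

lemma pow_shift (j i : ℕ) : 2 ^ j + i ≤ 2 ^ (i + j) := by
  induction i with
  | zero => simp
  | succ i ih =>
    have h1 : 2 ^ (i + 1 + j) = 2 ^ (i + j) + 2 ^ (i + j) := by ring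
    have h2 : 1 ≤ 2 ^ (i + j) := Nat.one_le_two_pow
    omega

lemma kempner_bounds (j : ℕ) :
    0 < kempner - (A j : ℝ) / (Q j : ℝ) ∧
      kempner - (A j : ℝ) / (Q j : ℝ) ≤ 2 / (Q j : ℝ) ^ 2 := by
  have hs := summable_kempner
  have h1 := hs.sum_add_tsum_nat_add (j + 1)
  have h2 : kempner - (A j : ℝ) / (Q j : ℝ) = ∑' i : ℕ, (1 / (2 : ℝ)) ^ (2 ^ (i + (j + 1))) := by
    unfold kempner
    rw [← h1, partial_sum]; ring
  have hs' : Summable fun i : ℕ => (1 / (2 : ℝ)) ^ (2 ^ (i + (j + 1))) :=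
    (summable_nat_add_iff (j + 1)).mpr hs
  rw [h2]
  constructor
  · exact hs'.tsum_pos (fun i => by positivity) 0 (by positivity)
  · have hg : Summable fun i : ℕ => (1 / (2 : ℝ)) ^ (2 ^ (j + 1)) * (1 / (2 : ℝ)) ^ i :=
      (summable_geometric_of_lt_one (by norm_num) (by norm_num)).mul_left _
    have hle : ∀ i : ℕ, (1 / (2 : ℝ)) ^ (2 ^ (i + (j + 1))) ≤
        (1 / (2 : ℝ)) ^ (2 ^ (j + 1)) * (1 / (2 : ℝ)) ^ i := by
      intro i
      rw [← pow_add]
      exact pow_le_pow_of_le_one (by norm_num) (by norm_num) (pow_shift (j + 1) i)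
    have h4 := hs'.tsum_le_tsum hle hg
    have h5 : ∑' i : ℕ, (1 / (2 : ℝ)) ^ (2 ^ (j + 1)) * (1 / (2 : ℝ)) ^ i =
        (1 / (2 : ℝ)) ^ (2 ^ (j + 1)) * 2 := by
      rw [tsum_mul_left, tsum_geometric_of_lt_one (by norm_num) (by norm_num)]
      norm_num
    rw [h5] at h4
    refine h4.trans (le_of_eq ?_)
    have h6 : (1 / (2 : ℝ)) ^ (2 ^ (j + 1)) = 1 / (Q j : ℝ) ^ 2 := by
      unfold Q
      push_cast
      rw [one_div_pow, ← pow_mul, pow_succ]
    rw [h6]; ring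

lemma lt_Q (q : ℤ) (hq : 0 < q) (j : ℕ) (hj : q.toNat ≤ j) : q < Q j := by
  have h1 : q.toNat < 2 ^ (2 ^ j) := by
    have h2 : j < 2 ^ j := Nat.lt_two_pow_self
    have h3 : 2 ^ j < 2 ^ (2 ^ j) := Nat.lt_two_pow_self
    omega
  have h4 : (q.toNat : ℤ) = q := Int.toNat_of_nonneg hq.le
  rw [← h4]
  unfold Q
  exact_mod_cast h1

lemma Q_tendsto : Tendsto (fun j => (Q j : ℝ)) atTop atTop := by
  refine tendsto_atTop_mono (fun j => ?_) tendsto_natCast_atTop_atTop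
  have h2 : j < 2 ^ j := Nat.lt_two_pow_self
  have h3 : 2 ^ j < 2 ^ (2 ^ j) := Nat.lt_two_pow_self
  have h4 : j ≤ 2 ^ (2 ^ j) := by omega
  unfold Q
  exact_mod_cast h4

/-- `|κ - p/q| ≥ 1/(64 q²)` for all `p/q` -/
lemma approx (q p : ℤ) (hq : 0 < q) :
    1 / (64 * (q : ℝ) ^ 2) ≤ |kempner - (p : ℝ) / q| := by
  have hqR : (0 : ℝ) < q := by exact_mod_cast hq
  have h1 : Tendsto (fun j => (2 : ℝ) / (Q j : ℝ) ^ 2) atTop (𝓝 0) := by
    refine tendsto_const_nhds.div_atTop ?_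
    exact (tendsto_pow_atTop (by norm_num)).comp Q_tendsto
  have h2 : Tendsto (fun j => |kempner - (p : ℝ) / q| + (2 : ℝ) / (Q j : ℝ) ^ 2) atTop
      (𝓝 (|kempner - (p : ℝ) / q| + 0)) := tendsto_const_nhds.add h1
  rw [add_zero] at h2
  refine ge_of_tendsto h2 ?_
  filter_upwards [eventually_ge_atTop q.toNat] with j hj
  have h3 := key' j q p hq (lt_Q q hq j hj)
  obtain ⟨hb1, hb2⟩ := kempner_bounds j
  have hQ : (0 : ℝ) < Q j := by exact_mod_cast Q_pos j
  have h4 : (1 : ℝ) / (64 * (q : ℝ) ^ 2) ≤ |(A j : ℝ) / Q j - p / q| := by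
    have : (A j : ℝ) / Q j - p / q = (q * A j - p * Q j) / (q * Q j) := by
      field_simp
    rw [this, abs_div, abs_of_pos (mul_pos hqR hQ), div_le_div_iff₀ (by positivity) (by positivity)]
    nlinarith
  have h5 : |(A j : ℝ) / Q j - p / q| ≤ |kempner - (p : ℝ) / q| + |kempner - (A j : ℝ) / Q j| := by
    have : (A j : ℝ) / Q j - p / q = (kempner - (p : ℝ) / q) - (kempner - (A j : ℝ) / Q j) := by ring
    rw [this]
    exact abs_sub _ _
  rw [abs_of_pos hb1] at h5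
  linarith

lemma irrational_kempner : Irrational kempner := by
  rintro ⟨r, hr⟩
  have h := approx r.den r.num (by exact_mod_cast r.pos)
  have h2 : kempner - ((r.num : ℤ) : ℝ) / ((r.den : ℤ) : ℝ) = 0 := by
    rw [← hr]
    have : (r : ℝ) = (r.num : ℝ) / (r.den : ℝ) := by exact_mod_cast (Rat.num_div_den r).symm
    rw [this]
    push_cast
    ring
  rw [h2, abs_zero] at h
  have h3 : (0 : ℝ) < ((r.den : ℤ) : ℝ) := by exact_mod_cast r.pos
  have : 0 < 1 / (64 * ((r.den : ℤ) : ℝ) ^ 2) := by positivity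
  linarith

lemma type_kempner (κ : ℝ) (hκ : 2 ≤ κ) : IsOfType κ kempner := by
  refine ⟨1 / 64, by norm_num, ?_⟩
  intro a q hq _
  have hqR : (1 : ℝ) ≤ q := by exact_mod_cast hq
  have h := approx q a (by omega)
  refine le_trans ?_ h
  have h2 : (q : ℝ) ^ (-κ) ≤ (q : ℝ) ^ (-(2 : ℝ)) :=
    Real.rpow_le_rpow_of_exponent_le hqR (by linarith)
  have h3 : (q : ℝ) ^ (-(2 : ℝ)) = 1 / (q : ℝ) ^ 2 := by
    rw [Real.rpow_neg (by linarith), Real.rpow_two, one_div]
  rw [h3] at h2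
  calc 1 / 64 * (q : ℝ) ^ (-κ) ≤ 1 / 64 * (1 / (q : ℝ) ^ 2) :=
        mul_le_mul_of_nonneg_left h2 (by norm_num)
    _ = 1 / (64 * (q : ℝ) ^ 2) := by field_simp

/-! ### The lower bound for the correlation -/

lemma x_mem (α : ℝ) (n : ℕ) : 0 ≤ x α n ∧ x α n < 1 := ⟨Int.fract_nonneg _, Int.fract_lt_one _⟩

lemma summable_inner (d N : ℕ) (hN : 1 ≤ N) (α : ℝ) (n : Fin (d + 1) → ℕ)
    (f : (Fin d → ℝ) → ℝ) (hf : HasCompactSupport f) :
    Summable fun m : Fin d → ℤ =>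
      f fun i => (N : ℝ) * (x α (n i.castSucc) - x α (n i.succ) + (m i : ℝ)) := by
  obtain ⟨R, hR⟩ := hf.isCompact.isBounded.subset_closedBall 0
  apply summable_of_hasFiniteSupport
  refine (Set.finite_Icc (fun _ : Fin d => (-⌈|R|⌉ - 1 : ℤ)) (fun _ => ⌈|R|⌉ + 1)).subset ?_
  intro m hm
  rw [Function.mem_support] at hm
  have h0 : (fun i : Fin d => (N : ℝ) * (x α (n i.castSucc) - x α (n i.succ) + (m i : ℝ))) ∈
      Metric.closedBall (0 : Fin d → ℝ) R := hR (subset_tsupport f hm)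
  rw [mem_closedBall_zero_iff] at h0
  have hNR : (1 : ℝ) ≤ N := by exact_mod_cast hN
  have h2 : ∀ i, |(m i : ℝ)| < |R| + 1 := by
    intro i
    have h3 := (norm_le_pi_norm (fun i : Fin d =>
      (N : ℝ) * (x α (n i.castSucc) - x α (n i.succ) + (m i : ℝ))) i).trans h0
    simp only [Real.norm_eq_abs, abs_mul, Nat.abs_cast] at h3
    have h4 : |x α (n i.castSucc) - x α (n i.succ) + (m i : ℝ)| ≤ |R| := by
      have := abs_nonneg (x α (n i.castSucc) - x α (n i.succ) + (m i : ℝ))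
      have := le_abs_self R
      nlinarith
    have h5 := x_mem α (n i.castSucc)
    have h6 := x_mem α (n i.succ)
    rw [abs_le] at h4
    rw [abs_lt]
    constructor <;> linarith [h4.1, h4.2, h5.1, h5.2, h6.1, h6.2]
  constructor
  · intro i
    have := h2 i
    rw [abs_lt] at this
    have h := this.1
    have h7 := Int.le_ceil |R|
    have : ((-⌈|R|⌉ - 1 : ℤ) : ℝ) ≤ m i := by push_cast; linarith
    exact_mod_cast this
  · intro i
    have := h2 i
    rw [abs_lt] at this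
    have h := this.2
    have h7 := Int.le_ceil |R|
    have : (m i : ℝ) ≤ ((⌈|R|⌉ + 1 : ℤ) : ℝ) := by push_cast; linarith
    exact_mod_cast this

lemma corr_lower (d N : ℕ) (hN : 1 ≤ N) (α : ℝ) (f : (Fin d → ℝ) → ℝ) (hf : HasCompactSupport f)
    (hf0 : ∀ y, 0 ≤ f y) (b δ : ℝ) (hb : ∀ y : Fin d → ℝ, (∀ i, |y i| ≤ δ) → b ≤ f y)
    (T : Finset (Fin (d + 1) → ℕ))
    (hT : T ⊆ (Fintype.piFinset fun _ : Fin (d + 1) => Finset.Icc 1 N).filter
        (fun n => Function.Injective n))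
    (hcl : ∀ n ∈ T, ∀ i j, |x α (n i) - x α (n j)| ≤ δ / N) :
    b * (T.card : ℝ) / N ≤ corr d N α f := by
  unfold corr
  have hNR : (0 : ℝ) < N := by exact_mod_cast hN
  rw [div_eq_mul_one_div, mul_comm]
  refine mul_le_mul_of_nonneg_left ?_ (by positivity)
  refine le_trans ?_ (Finset.sum_le_sum_of_subset_of_nonneg hT
    (fun n _ _ => tsum_nonneg (fun m => hf0 _)))
  have : b * (T.card : ℝ) = ∑ n ∈ T, b := by rw [Finset.sum_const, nsmul_eq_mul, mul_comm]
  rw [this]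
  refine Finset.sum_le_sum (fun n hn => ?_)
  have h1 := (summable_inner d N hN α n f hf).le_tsum (0 : Fin d → ℤ) (fun m _ => hf0 _)
  refine le_trans ?_ h1
  apply hb
  intro i
  simp only [Pi.zero_apply, Int.cast_zero, add_zero, abs_mul, Nat.abs_cast]
  have h2 := hcl n hn i.castSucc i.succ
  have h3 := mul_le_mul_of_nonneg_left h2 hNR.le
  rw [mul_div_cancel₀ _ hNR.ne'] at h3
  exact h3

/-- the cluster near `0`: multiples of `2^{2^j}`, the square root of `Q_{j+1}` -/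
lemma x_cluster (j u : ℕ) (ε : ℝ) (hε : ε < 1)
    (hu : 2 * (u : ℝ) ^ 2 ≤ ε * (Q (j + 1) : ℝ)) :
    0 ≤ x kempner (2 ^ (2 ^ j) * u) ∧ x kempner (2 ^ (2 ^ j) * u) ≤ ε := by
  refine ⟨(x_mem _ _).1, ?_⟩
  obtain ⟨hb1, hb2⟩ := kempner_bounds (j + 1)
  have hQ : (0 : ℝ) < Q (j + 1) := by exact_mod_cast Q_pos (j + 1)
  have hq4 : (Q (j + 1) : ℝ) = ((2 : ℝ) ^ (2 ^ j)) ^ 2 := by
    rw [Q_succ]; unfold Q; push_cast; ring
  set θ : ℝ := (Q (j + 1) : ℝ) * (kempner - (A (j + 1) : ℝ) / (Q (j + 1) : ℝ)) with hθ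
  have hθ0 : 0 < θ := mul_pos hQ hb1
  have hθ1 : θ ≤ 2 / (Q (j + 1) : ℝ) := by
    have := mul_le_mul_of_nonneg_left hb2 hQ.le
    refine this.trans (le_of_eq ?_)
    field_simp
  have h1 : (((2 ^ (2 ^ j) * u : ℕ) : ℝ)) ^ 2 * kempner =
      (u : ℝ) ^ 2 * θ + ((u ^ 2 * A (j + 1) : ℤ) : ℝ) := by
    have : kempner = θ / Q (j + 1) + (A (j + 1) : ℝ) / (Q (j + 1) : ℝ) := by
      rw [hθ]; field_simp; ring
    rw [this]
    push_cast
    rw [mul_pow, ← hq4]
    field_simp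
  have h2 : (u : ℝ) ^ 2 * θ ≤ ε := by
    have h3 : (u : ℝ) ^ 2 * θ ≤ u ^ 2 * (2 / (Q (j + 1) : ℝ)) :=
      mul_le_mul_of_nonneg_left hθ1 (by positivity)
    refine h3.trans ?_
    rw [mul_div_assoc', div_le_iff₀ (by positivity)]
    linarith
  unfold x
  rw [h1, Int.fract_add_intCast, Int.fract_eq_self.mpr ⟨by positivity, by linarith⟩]
  exact h2

/-- lower bound for the correlation at `N = (d+1) L 2^{2^j}` -/
lemma corr_lower' (d j L : ℕ) (hL : 1 ≤ L) (f : (Fin d → ℝ) → ℝ) (hf : HasCompactSupport f)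
    (hf0 : ∀ y, 0 ≤ f y) (b δ : ℝ) (hδ1 : δ ≤ 1)
    (hb : ∀ y : Fin d → ℝ, (∀ i, |y i| ≤ δ) → b ≤ f y)
    (h2 : 2 * ((d + 1 : ℝ) * L) ^ 3 ≤ δ * 2 ^ (2 ^ j)) :
    b * ((L : ℝ) ^ (d + 1)) / ((2 ^ (2 ^ j) * ((d + 1) * L) : ℕ) : ℝ) ≤
      corr d (2 ^ (2 ^ j) * ((d + 1) * L)) kempner f := by
  classical
  set v := 2 ^ (2 ^ j) with hv
  have hv0 : 0 < v := by positivity
  set N := v * ((d + 1) * L) with hN
  have hv2 : 2 ≤ v := by
    calc 2 = 2 ^ 1 := by norm_num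
      _ ≤ 2 ^ (2 ^ j) := Nat.pow_le_pow_right (by norm_num) Nat.one_le_two_pow
  have hN1 : 2 ≤ N := by
    calc 2 = 2 * 1 := by norm_num
      _ ≤ v * ((d + 1) * L) := Nat.mul_le_mul hv2 (Nat.mul_pos (by omega) hL)
  let T : Finset (Fin (d + 1) → ℕ) := Fintype.piFinset fun i : Fin (d + 1) =>
    (Finset.Icc 1 L).image (fun w => v * ((i : ℕ) * L + w))
  have hcard : T.card = L ^ (d + 1) := by
    rw [Fintype.card_piFinset]
    have : ∀ i : Fin (d + 1),
        ((Finset.Icc 1 L).image (fun w => v * ((i : ℕ) * L + w))).card = L := by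
      intro i
      rw [Finset.card_image_of_injective, Nat.card_Icc]
      · omega
      · intro a b hab
        have := Nat.eq_of_mul_eq_mul_left hv0 hab
        omega
    rw [Finset.prod_congr rfl (fun i _ => this i)]
    simp
  have hmem : ∀ n ∈ T, ∀ i : Fin (d + 1), ∃ w : ℕ, 1 ≤ w ∧ w ≤ L ∧ n i = v * ((i : ℕ) * L + w) := by
    intro n hn i
    have := Fintype.mem_piFinset.mp hn i
    rw [Finset.mem_image] at this
    obtain ⟨w, hw, hw2⟩ := this
    rw [Finset.mem_Icc] at hw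
    exact ⟨w, hw.1, hw.2, hw2.symm⟩
  have hbd : ∀ (i : Fin (d + 1)) (w : ℕ), w ≤ L → (i : ℕ) * L + w ≤ (d + 1) * L := by
    intro i w hw
    have hi : (i : ℕ) + 1 ≤ d + 1 := i.isLt
    calc (i : ℕ) * L + w ≤ (i : ℕ) * L + L := by omega
      _ = ((i : ℕ) + 1) * L := by ring
      _ ≤ (d + 1) * L := Nat.mul_le_mul_right _ hi
  have hT : T ⊆ (Fintype.piFinset fun _ : Fin (d + 1) => Finset.Icc 1 N).filter
        (fun n => Function.Injective n) := by
    intro n hn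
    rw [Finset.mem_filter, Fintype.mem_piFinset]
    constructor
    · intro i
      obtain ⟨w, hw1, hw2, hw3⟩ := hmem n hn i
      rw [Finset.mem_Icc, hw3]
      constructor
      · exact Nat.mul_pos hv0 (by omega)
      · exact Nat.mul_le_mul_left v (hbd i w hw2)
    · intro i i' hii
      obtain ⟨w, hw1, hw2, hw3⟩ := hmem n hn i
      obtain ⟨w', hw1', hw2', hw3'⟩ := hmem n hn i'
      rw [hw3, hw3'] at hii
      have h4 := Nat.eq_of_mul_eq_mul_left hv0 hii
      by_contra hne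
      have hne' : (i : ℕ) ≠ (i' : ℕ) := fun h => hne (Fin.ext h)
      rcases Nat.lt_or_gt_of_ne hne' with hlt | hlt
      · have : ((i : ℕ) + 1) * L ≤ (i' : ℕ) * L := Nat.mul_le_mul_right _ hlt
        rw [Nat.add_mul, one_mul] at this
        omega
      · have : ((i' : ℕ) + 1) * L ≤ (i : ℕ) * L := Nat.mul_le_mul_right _ hlt
        rw [Nat.add_mul, one_mul] at this
        omega
  have hNR : (2 : ℝ) ≤ N := by exact_mod_cast hN1
  have hcl : ∀ n ∈ T, ∀ i i', |x kempner (n i) - x kempner (n i')| ≤ δ / N := by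
    intro n hn i i'
    have key2 : ∀ i : Fin (d + 1), 0 ≤ x kempner (n i) ∧ x kempner (n i) ≤ δ / N := by
      intro i
      obtain ⟨w, hw1, hw2, hw3⟩ := hmem n hn i
      rw [hw3]
      apply x_cluster j _ (δ / N)
      · rw [div_lt_one (by linarith)]; linarith
      · have h5 : (((i : ℕ) * L + w : ℕ) : ℝ) ≤ (d + 1 : ℝ) * L := by
          exact_mod_cast hbd i w hw2
        have h6 : (((i : ℕ) * L + w : ℕ) : ℝ) ^ 2 ≤ ((d + 1 : ℝ) * L) ^ 2 :=
          pow_le_pow_left₀ (by positivity) h5 2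
        have h7 : (Q (j + 1) : ℝ) = (v : ℝ) ^ 2 := by
          rw [Q_succ, hv]; unfold Q; push_cast; ring
        have h8 : (N : ℝ) = v * ((d + 1 : ℝ) * L) := by rw [hN]; push_cast; ring
        have hvR : (0 : ℝ) < v := by exact_mod_cast hv0
        have hdL : (0 : ℝ) < (d + 1 : ℝ) * L := by
          have : (1 : ℝ) ≤ L := by exact_mod_cast hL
          positivity
        have h9 : δ * (2 : ℝ) ^ (2 ^ j) = δ * v := by rw [hv]; push_cast; ring
        rw [h9] at h2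
        rw [h7, h8, div_mul_eq_mul_div, le_div_iff₀ (by positivity)]
        have h10 : 2 * ((d + 1 : ℝ) * L) ^ 3 * v ≤ δ * v * v :=
          mul_le_mul_of_nonneg_right h2 hvR.le
        have h11 : (((i : ℕ) * L + w : ℕ) : ℝ) ^ 2 * (v * ((d + 1 : ℝ) * L)) ≤
            ((d + 1 : ℝ) * L) ^ 2 * (v * ((d + 1 : ℝ) * L)) :=
          mul_le_mul_of_nonneg_right h6 (by positivity)
        nlinarith
    have h8 := key2 i
    have h9 := key2 i'
    rw [abs_le]
    constructor <;> linarith [h8.1, h8.2, h9.1, h9.2]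
  have h3 := corr_lower d N (by omega) kempner f hf hf0 b δ hb T hT hcl
  rw [hcard] at h3
  push_cast at h3 ⊢
  exact h3

/-- The lower bound along a sequence of `N`. -/
lemma frequently_large (d : ℕ) (f : (Fin d → ℝ) → ℝ) (hfc : Continuous f)
    (hf : HasCompactSupport f) (hf0 : ∀ y, 0 ≤ f y) (hf1 : 0 < f 0) (hd : 3 ≤ d) :
    ∃ c : ℝ, 0 < c ∧ ∃ᶠ N : ℕ in atTop, c * (N : ℝ) ^ (((d : ℝ) - 3) / 4) ≤ corr d N kempner f := by
  -- continuity at 0
  obtain ⟨δ, hδ0, hδ1, hδ⟩ : ∃ δ : ℝ, 0 < δ ∧ δ ≤ 1 ∧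
      ∀ y : Fin d → ℝ, (∀ i, |y i| ≤ δ) → f 0 / 2 ≤ f y := by
    have h1 : ∀ᶠ y in 𝓝 (0 : Fin d → ℝ), f 0 / 2 < f y :=
      hfc.continuousAt.eventually_const_lt (by linarith)
    obtain ⟨ε, hε, h2⟩ := Metric.eventually_nhds_iff.mp h1
    refine ⟨min (ε / 2) 1, by positivity, min_le_right _ _, fun y hy => (h2 ?_).le⟩
    rw [dist_zero_right]
    refine lt_of_le_of_lt ((pi_norm_le_iff_of_nonneg (by positivity)).mpr (fun i => hy i)) ?_
    exact lt_of_le_of_lt (min_le_left _ _) (by linarith)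
  set D : ℝ := (d : ℝ) + 1 with hD
  have hD0 : 0 < D := by positivity
  -- the constant
  set K : ℝ := 16 * D ^ 4 / δ with hK
  have hK0 : 0 < K := by positivity
  refine ⟨(f 0 / 2) / K * (1 / K) ^ (((d : ℝ) - 3) / 4), by positivity, ?_⟩
  rw [frequently_atTop]
  intro N₀
  -- choose j large
  obtain ⟨j, hj1, hj2⟩ : ∃ j : ℕ, N₀ ≤ 2 ^ (2 ^ j) ∧ 2 * D ^ 3 ≤ δ * 2 ^ (2 ^ j) := by
    have h1 : Tendsto (fun j => δ * (Q j : ℝ)) atTop atTop := Q_tendsto.const_mul_atTop hδ0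
    have h2 := (h1.eventually_ge_atTop (2 * D ^ 3)).and (Q_tendsto.eventually_ge_atTop (N₀ : ℝ))
    obtain ⟨j, hj⟩ := h2.exists
    refine ⟨j, ?_, ?_⟩
    · have := hj.2
      unfold Q at this
      exact_mod_cast this
    · have := hj.1
      unfold Q at this
      push_cast at this
      exact this
  -- choose L
  set v : ℝ := 2 ^ (2 ^ j) with hv
  have hv0 : 0 < v := by positivity
  have hex : ∃ L : ℕ, δ * v < 2 * (D * (L + 1)) ^ 3 := by
    obtain ⟨L, hL⟩ := exists_nat_gt (δ * v)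
    refine ⟨L, lt_of_lt_of_le hL ?_⟩
    have h1 : (1 : ℝ) ≤ D := by rw [hD]; linarith [(Nat.cast_nonneg d : (0 : ℝ) ≤ d)]
    have hL0 : (0 : ℝ) ≤ L := Nat.cast_nonneg L
    have h2 : (1 : ℝ) ≤ D * (L + 1) := by nlinarith
    have h3 : (L : ℝ) ≤ D * (L + 1) := by nlinarith
    have h4 : D * (L + 1) ≤ (D * (L + 1)) ^ 3 := le_self_pow₀ h2 (by norm_num)
    linarith
  classical
  set L := Nat.find hex with hLdef
  have hL1 := Nat.find_spec hex
  have hLpos : 1 ≤ L := by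
    by_contra hcon
    have hL0 : L = 0 := by omega
    rw [← hLdef, hL0] at hL1
    simp at hL1
    linarith
  have hL2 : 2 * (D * L) ^ 3 ≤ δ * v := by
    have := Nat.find_min hex (m := L - 1) (by omega)
    push Not at this
    have h1 : ((L - 1 : ℕ) : ℝ) + 1 = L := by
      have : ((L - 1 : ℕ) : ℝ) + 1 = ((L - 1 + 1 : ℕ) : ℝ) := by push_cast; ring
      rw [this, Nat.sub_add_cancel hLpos]
    rwa [h1] at this
  rw [← hLdef] at hL1
  have hLR : (1 : ℝ) ≤ L := by exact_mod_cast hLpos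
  refine ⟨2 ^ (2 ^ j) * ((d + 1) * L), ?_, ?_⟩
  · refine hj1.trans (Nat.le_mul_of_pos_right _ (Nat.mul_pos (by omega) hLpos))
  · have h3 := corr_lower' d j L hLpos f hf hf0 (f 0 / 2) δ hδ1 hδ hL2
    refine le_trans ?_ h3
    set N : ℕ := 2 ^ (2 ^ j) * ((d + 1) * L) with hN
    have hNR : (N : ℝ) = v * (D * L) := by rw [hN, hv, hD]; push_cast; ring
    have hN0 : (0 : ℝ) < N := by rw [hNR]; positivity
    have hNK : (N : ℝ) ≤ K * (L : ℝ) ^ 4 := by
      have h4 : δ * v ≤ 16 * (D * L) ^ 3 := by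
        have h5 : D * ((L : ℝ) + 1) ≤ 2 * (D * L) := by nlinarith
        have h6 : (D * ((L : ℝ) + 1)) ^ 3 ≤ (2 * (D * L)) ^ 3 :=
          pow_le_pow_left₀ (by positivity) h5 3
        nlinarith
      rw [hNR, hK, div_mul_eq_mul_div, le_div_iff₀ hδ0]
      have h7 : δ * v * (D * L) ≤ 16 * (D * L) ^ 3 * (D * L) :=
        mul_le_mul_of_nonneg_right h4 (by positivity)
      nlinarith
    have h5 : (1 / K * N) ^ (((d : ℝ) - 3) / 4) ≤ (L : ℝ) ^ ((d : ℝ) - 3) := by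
      have h6 : (1 / K * N) ≤ (L : ℝ) ^ (4 : ℝ) := by
        rw [one_div, inv_mul_le_iff₀ hK0]
        have : (L : ℝ) ^ (4 : ℝ) = (L : ℝ) ^ 4 := by
          rw [show (4 : ℝ) = ((4 : ℕ) : ℝ) by norm_num, Real.rpow_natCast]
        rw [this]
        exact hNK
      have hd3 : (0 : ℝ) ≤ ((d : ℝ) - 3) / 4 := by
        have : (3 : ℝ) ≤ d := by exact_mod_cast hd
        linarith
      have h7 := Real.rpow_le_rpow (by positivity) h6 hd3
      rw [← Real.rpow_mul (by positivity)] at h7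
      have h8 : (4 : ℝ) * (((d : ℝ) - 3) / 4) = (d : ℝ) - 3 := by ring
      rwa [h8] at h7
    have h6 : (L : ℝ) ^ ((d : ℝ) - 3) * (N : ℝ) ≤ K * (L : ℝ) ^ (d + 1) := by
      have h7 : (L : ℝ) ^ ((d : ℝ) - 3) * (N : ℝ) ≤ (L : ℝ) ^ ((d : ℝ) - 3) * (K * (L : ℝ) ^ 4) :=
        mul_le_mul_of_nonneg_left hNK (by positivity)
      refine h7.trans (le_of_eq ?_)
      have h8 : (L : ℝ) ^ ((d : ℝ) - 3) * (L : ℝ) ^ 4 = (L : ℝ) ^ (d + 1) := by
        rw [← Real.rpow_natCast, ← Real.rpow_natCast, ← Real.rpow_add (by positivity)]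
        congr 1
        push_cast
        ring
      calc (L : ℝ) ^ ((d : ℝ) - 3) * (K * (L : ℝ) ^ 4) =
          K * ((L : ℝ) ^ ((d : ℝ) - 3) * (L : ℝ) ^ 4) := by ring
        _ = K * (L : ℝ) ^ (d + 1) := by rw [h8]
    rw [le_div_iff₀ hN0]
    have h9 : (1 / K) ^ (((d : ℝ) - 3) / 4) * (N : ℝ) ^ (((d : ℝ) - 3) / 4) ≤
        (L : ℝ) ^ ((d : ℝ) - 3) := by
      rw [← Real.mul_rpow (by positivity) (by positivity)]
      exact h5
    calc f 0 / 2 / K * (1 / K) ^ (((d : ℝ) - 3) / 4) * (N : ℝ) ^ (((d : ℝ) - 3) / 4) * N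
        = f 0 / 2 / K * (((1 / K) ^ (((d : ℝ) - 3) / 4) * (N : ℝ) ^ (((d : ℝ) - 3) / 4)) * N) := by
          ring
      _ ≤ f 0 / 2 / K * ((L : ℝ) ^ ((d : ℝ) - 3) * N) := by
          apply mul_le_mul_of_nonneg_left _ (by positivity)
          exact mul_le_mul_of_nonneg_right h9 hN0.le
      _ ≤ f 0 / 2 / K * (K * (L : ℝ) ^ (d + 1)) := by
          apply mul_le_mul_of_nonneg_left h6 (by positivity)
      _ = f 0 / 2 * (L : ℝ) ^ (d + 1) := by field_simp

/-- The Kempner number `α = ∑ 2^{-2^n}` is irrational and badly approximable (of type `2`, hence of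
type `κ` for every `κ ≥ 2`), but for every `k = d + 1 ≥ 5` and every nonnegative continuous compactly
supported `f` with `f(0) > 0` the `k`-level correlation `R_k(f, N)` of `{n² α}` is at least
`c N^{(k-4)/4}` for infinitely many `N`, with some `c > 0`; in particular it is unbounded and has no
limit as `N → ∞`, so that `{n² α}` is not Poissonian. -/
theorem result :
    Irrational kempner ∧ (∀ κ : ℝ, 2 ≤ κ → IsOfType κ kempner) ∧
    ∀ d : ℕ, 4 ≤ d → ∀ f : (Fin d → ℝ) → ℝ, Continuous f → HasCompactSupport f →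
      (∀ y, 0 ≤ f y) → 0 < f 0 →
      (∃ c : ℝ, 0 < c ∧
        ∃ᶠ N : ℕ in atTop, c * (N : ℝ) ^ (((d : ℝ) - 3) / 4) ≤ corr d N kempner f) ∧
      ∀ l : ℝ, ¬ Tendsto (fun N : ℕ => corr d N kempner f) atTop (𝓝 l) := by
  refine ⟨irrational_kempner, type_kempner, ?_⟩
  intro d hd f hfc hf hf0 hf1
  obtain ⟨c, hc, hfr⟩ := frequently_large d f hfc hf hf0 hf1 (by omega)
  refine ⟨⟨c, hc, hfr⟩, ?_⟩
  intro l hl
  have h1 : ∀ᶠ N : ℕ in atTop, corr d N kempner f < l + 1 :=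
    hl.eventually_lt_const (by linarith)
  have hd4 : (0 : ℝ) < ((d : ℝ) - 3) / 4 := by
    have : (4 : ℝ) ≤ d := by exact_mod_cast hd
    linarith
  have h2 : Tendsto (fun N : ℕ => c * (N : ℝ) ^ (((d : ℝ) - 3) / 4)) atTop atTop :=
    ((tendsto_rpow_atTop hd4).comp tendsto_natCast_atTop_atTop).const_mul_atTop hc
  have h3 := h2.eventually_ge_atTop (l + 1)
  obtain ⟨N, hN1, hN2, hN3⟩ := (hfr.and_eventually (h1.and h3)).exists
  linarith

end Pool.Agent.Results.MP_0a44cb_nt.KempnerNotPoisson
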